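import Mathlib

namespace Pool.Agent.Results.MP_18c441_lc.Confluent

open Relation

/-- Applicative terms over variables and the constants `S K I T F C`. -/
inductive Tm : Type
  | var : ℕ → Tm
  | S : Tm
  | K : Tm
  | I : Tm
  | T : Tm
  | F : Tm
  | C : Tm
  | app : Tm → Tm → Tm

open Tm

/-- Instances of the six rules, the condition of the sixth being given by the relation `c`. -/
inductive Root (c : Tm → Tm → Prop) : Tm → Tm → Prop
  | rI (x : Tm) : Root c (app I x) x
  | rK (x y : Tm) : Root c (app (app K x) y) x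
  | rS (x y z : Tm) : Root c (app (app (app S x) y) z) (app (app x z) (app y z))
  | rT (x y : Tm) : Root c (app (app (app C T) x) y) x
  | rF (x y : Tm) : Root c (app (app (app C F) x) y) y
  | rC (z x y : Tm) : c x y → Root c (app (app (app C z) x) y) x

/-- One contraction inside any context. -/
inductive Red (c : Tm → Tm → Prop) : Tm → Tm → Prop
  | root {t u : Tm} : Root c t u → Red c t u
  | left {a a' : Tm} (b : Tm) : Red c a a' → Red c (app a b) (app a' b)
  | right (a : Tm) {b b' : Tm} : Red c b b' → Red c (app a b) (app a b')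

/-- The stratified relations: level `0` is empty, and at level `n + 1` the condition is
convertibility at level `n`. -/
def Lev : ℕ → Tm → Tm → Prop
  | 0 => fun _ _ => False
  | n + 1 => Red (EqvGen (Lev n))

/-- The rewrite relation of the conditional system: the union of all levels. -/
def R (t u : Tm) : Prop := ∃ n, Lev n t u

abbrev E : Tm → Tm → Prop := EqvGen R

lemma Root.mono {c d : Tm → Tm → Prop} (h : ∀ x y, c x y → d x y) {t u : Tm} (r : Root c t u) :
    Root d t u := by
  cases r with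
  | rI => exact .rI _
  | rK => exact .rK _ _
  | rS => exact .rS _ _ _
  | rT => exact .rT _ _
  | rF => exact .rF _ _
  | rC z x y hc => exact .rC _ _ _ (h _ _ hc)

lemma Red.mono {c d : Tm → Tm → Prop} (h : ∀ x y, c x y → d x y) {t u : Tm} (r : Red c t u) :
    Red d t u := by
  induction r with
  | root r => exact .root (r.mono h)
  | left b _ ih => exact .left b ih
  | right a _ ih => exact .right a ih

lemma eqv_mono {c d : Tm → Tm → Prop} (h : ∀ x y, c x y → d x y) {t u : Tm} (r : EqvGen c t u) :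
    EqvGen d t u := by
  induction r with
  | rel _ _ r => exact .rel _ _ (h _ _ r)
  | refl => exact .refl _
  | symm _ _ _ ih => exact .symm _ _ ih
  | trans _ _ _ _ _ i1 i2 => exact .trans _ _ _ i1 i2

lemma Lev_succ : ∀ n x y, Lev n x y → Lev (n + 1) x y := by
  intro n
  induction n with
  | zero => intro x y h; exact h.elim
  | succ n ih => intro x y h; exact Red.mono (fun _ _ => eqv_mono ih) h

lemma Lev_le {m n : ℕ} (h : m ≤ n) : ∀ x y, Lev m x y → Lev n x y := by
  induction n, h using Nat.le_induction with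
  | base => exact fun _ _ h => h
  | succ n _ ih => exact fun x y h => Lev_succ _ _ _ (ih x y h)

lemma E_lev {x y : Tm} (h : E x y) : ∃ n, EqvGen (Lev n) x y := by
  induction h with
  | rel _ _ r => obtain ⟨n, r⟩ := r; exact ⟨n, .rel _ _ r⟩
  | refl => exact ⟨0, .refl _⟩
  | symm _ _ _ ih => obtain ⟨n, r⟩ := ih; exact ⟨n, .symm _ _ r⟩
  | trans _ _ _ _ _ i1 i2 =>
    obtain ⟨n, r⟩ := i1
    obtain ⟨m, r'⟩ := i2
    exact ⟨max n m, .trans _ _ _ (eqv_mono (Lev_le (le_max_left _ _)) r)
      (eqv_mono (Lev_le (le_max_right _ _)) r')⟩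

lemma lev_E {n : ℕ} {x y : Tm} (h : EqvGen (Lev n) x y) : E x y :=
  eqv_mono (fun _ _ h => ⟨n, h⟩) h

lemma R_root {t u : Tm} (h : Root E t u) : R t u := by
  cases h with
  | rI => exact ⟨1, .root (.rI _)⟩
  | rK => exact ⟨1, .root (.rK _ _)⟩
  | rS => exact ⟨1, .root (.rS _ _ _)⟩
  | rT => exact ⟨1, .root (.rT _ _)⟩
  | rF => exact ⟨1, .root (.rF _ _)⟩
  | rC z x y hc => obtain ⟨n, h⟩ := E_lev hc; exact ⟨n + 1, .root (.rC _ _ _ h)⟩

lemma R_left {a a' : Tm} (b : Tm) (h : R a a') : R (app a b) (app a' b) := by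
  obtain ⟨n, h⟩ := h
  cases n with
  | zero => exact h.elim
  | succ n => exact ⟨n + 1, Red.left b h⟩

lemma R_right (a : Tm) {b b' : Tm} (h : R b b') : R (app a b) (app a b') := by
  obtain ⟨n, h⟩ := h
  cases n with
  | zero => exact h.elim
  | succ n => exact ⟨n + 1, Red.right a h⟩

abbrev Rs : Tm → Tm → Prop := ReflTransGen R

lemma Rs_app {a a' b b' : Tm} (h1 : Rs a a') (h2 : Rs b b') : Rs (app a b) (app a' b') := by
  have p : Rs (app a b) (app a' b) := by
    induction h1 with
    | refl => exact .refl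
    | tail _ h ih => exact ih.tail (R_left b h)
  refine p.trans ?_
  clear p
  induction h2 with
  | refl => exact .refl
  | tail _ h ih => exact ih.tail (R_right a' h)

lemma Rs_E {a b : Tm} (h : Rs a b) : E a b := by
  induction h with
  | refl => exact .refl _
  | tail _ h ih => exact .trans _ _ _ ih (.rel _ _ h)

lemma E_move {x y x' y' : Tm} (h : E x y) (h1 : E x x') (h2 : E y y') : E x' y' :=
  .trans _ _ _ (.symm _ _ h1) (.trans _ _ _ h h2)

/-- Big-step evaluation of a term applied to a stack to `T` or `F`. -/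
inductive Ev : Tm → List Tm → Bool → Prop
  | eT : Ev T [] true
  | eF : Ev F [] false
  | eapp {a b s v} : Ev a (b :: s) v → Ev (app a b) s v
  | eI {x s v} : Ev x s v → Ev I (x :: s) v
  | eK {x y s v} : Ev x s v → Ev K (x :: y :: s) v
  | eS {x y z s v} : Ev (app (app x z) (app y z)) s v → Ev S (x :: y :: z :: s) v
  | eCT {z x y s v} : Ev z [] true → Ev x s v → Ev C (z :: x :: y :: s) v
  | eCF {z x y s v} : Ev z [] false → Ev y s v → Ev C (z :: x :: y :: s) v
  | eC {z x y s v} : E x y → Ev x s v → Ev y s v → Ev C (z :: x :: y :: s) v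

lemma Rs_stack {a a' : Tm} (h : Rs a a') (s : List Tm) :
    Rs (s.foldl app a) (s.foldl app a') := by
  induction s generalizing a a' with
  | nil => exact h
  | cons b s ih => exact ih (Rs_app h .refl)

lemma Ev_Rs {t s v} (h : Ev t s v) : Rs (s.foldl app t) (if v then T else F) := by
  induction h with
  | eT => exact .refl
  | eF => exact .refl
  | eapp _ ih => exact ih
  | eI _ ih => exact (Rs_stack (.single (R_root (.rI _))) _).trans ih
  | eK _ ih => exact (Rs_stack (.single (R_root (.rK _ _))) _).trans ih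
  | eS _ ih => exact (Rs_stack (.single (R_root (.rS _ _ _))) _).trans ih
  | eCT _ _ i1 i2 =>
    exact (Rs_stack ((Rs_app (Rs_app (Rs_app .refl i1) .refl) .refl).tail
      (R_root (.rT _ _))) _).trans i2
  | eCF _ _ i1 i2 =>
    exact (Rs_stack ((Rs_app (Rs_app (Rs_app .refl i1) .refl) .refl).tail
      (R_root (.rF _ _))) _).trans i2
  | eC hc _ _ i1 _ => exact (Rs_stack (.single (R_root (.rC _ _ _ hc))) _).trans i1

/-- Contraction of disjoint redexes. -/
inductive Par (c : Tm → Tm → Prop) : Tm → Tm → Prop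
  | refl (t : Tm) : Par c t t
  | app {a a' b b' : Tm} : Par c a a' → Par c b b' → Par c (app a b) (app a' b')
  | root {t u : Tm} : Root c t u → Par c t u

lemma Red_Par {c t u} (h : Red c t u) : Par c t u := by
  induction h with
  | root r => exact .root r
  | left b _ ih => exact .app ih (.refl _)
  | right a _ ih => exact .app (.refl _) ih

section closure
variable {c : Tm → Tm → Prop} (hE : ∀ x y, c x y → E x y)
  (hc : ∀ x y, c x y → ∀ s v, Ev x s v ↔ Ev y s v)
include hE

lemma Par_E {t u} (h : Par c t u) : E t u := by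
  apply Rs_E
  induction h with
  | refl => exact .refl
  | app _ _ i1 i2 => exact Rs_app i1 i2
  | root r => exact .single (R_root (r.mono hE))

include hc

lemma root_iff {t u} (r : Root c t u) (s v) : Ev t s v ↔ Ev u s v := by
  cases r with
  | rI =>
    refine ⟨fun h => ?_, fun h => .eapp (.eI h)⟩
    cases h with | eapp h => cases h with | eI h => exact h
  | rK =>
    refine ⟨fun h => ?_, fun h => .eapp (.eapp (.eK h))⟩
    cases h with | eapp h => cases h with | eapp h => cases h with | eK h => exact h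
  | rS =>
    refine ⟨fun h => ?_, fun h => .eapp (.eapp (.eapp (.eS h)))⟩
    cases h with | eapp h => cases h with | eapp h => cases h with | eapp h =>
      cases h with | eS h => exact h
  | rT =>
    refine ⟨fun h => ?_, fun h => .eapp (.eapp (.eapp (.eCT .eT h)))⟩
    cases h with | eapp h => cases h with | eapp h => cases h with | eapp h =>
      cases h with
      | eCT _ h => exact h
      | eCF h _ => cases h
      | eC _ h _ => exact h
  | rF =>
    refine ⟨fun h => ?_, fun h => .eapp (.eapp (.eapp (.eCF .eF h)))⟩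
    cases h with | eapp h => cases h with | eapp h => cases h with | eapp h =>
      cases h with
      | eCT h _ => cases h
      | eCF _ h => exact h
      | eC _ _ h => exact h
  | rC z _ y hxy =>
    refine ⟨fun h => ?_, fun h =>
      .eapp (.eapp (.eapp (.eC (hE _ _ hxy) h ((hc _ _ hxy _ _).1 h))))⟩
    cases h with | eapp h => cases h with | eapp h => cases h with | eapp h =>
      cases h with
      | eCT _ h => exact h
      | eCF _ h => exact (hc _ _ hxy _ _).2 h
      | eC _ h _ => exact h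

lemma fwd {t s v} (h : Ev t s v) :
    ∀ t' s', Par c t t' → List.Forall₂ (Par c) s s' → Ev t' s' v := by
  induction h with
  | eT => intro t' s' h1 h2; cases h2; cases h1 with | refl => exact .eT | root r => cases r
  | eF => intro t' s' h1 h2; cases h2; cases h1 with | refl => exact .eF | root r => cases r
  | eapp _ ih =>
    intro t' s' h1 h2
    cases h1 with
    | refl => exact .eapp (ih _ _ (.refl _) (.cons (.refl _) h2))
    | app ha hb => exact .eapp (ih _ _ ha (.cons hb h2))
    | root r => exact (root_iff hE hc r _ _).1 (.eapp (ih _ _ (.refl _) (.cons (.refl _) h2)))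
  | eI _ ih =>
    intro t' s' h1 h2
    cases h1 with
    | root r => cases r
    | refl => rcases h2 with _ | ⟨hx, h2⟩; exact .eI (ih _ _ hx h2)
  | eK _ ih =>
    intro t' s' h1 h2
    cases h1 with
    | root r => cases r
    | refl => rcases h2 with _ | ⟨hx, _ | ⟨hy, h2⟩⟩; exact .eK (ih _ _ hx h2)
  | eS _ ih =>
    intro t' s' h1 h2
    cases h1 with
    | root r => cases r
    | refl =>
      rcases h2 with _ | ⟨hx, _ | ⟨hy, _ | ⟨hz, h2⟩⟩⟩
      exact .eS (ih _ _ (.app (.app hx hz) (.app hy hz)) h2)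
  | eCT _ _ i1 i2 =>
    intro t' s' h1 h2
    cases h1 with
    | root r => cases r
    | refl =>
      rcases h2 with _ | ⟨hz, _ | ⟨hx, _ | ⟨hy, h2⟩⟩⟩
      exact .eCT (i1 _ _ hz .nil) (i2 _ _ hx h2)
  | eCF _ _ i1 i2 =>
    intro t' s' h1 h2
    cases h1 with
    | root r => cases r
    | refl =>
      rcases h2 with _ | ⟨hz, _ | ⟨hx, _ | ⟨hy, h2⟩⟩⟩
      exact .eCF (i1 _ _ hz .nil) (i2 _ _ hy h2)
  | eC hxy _ _ i1 i2 =>
    intro t' s' h1 h2
    cases h1 with
    | root r => cases r
    | refl =>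
      rcases h2 with _ | ⟨hz, _ | ⟨hx, _ | ⟨hy, h2⟩⟩⟩
      exact .eC (E_move hxy (Par_E hE hx) (Par_E hE hy)) (i1 _ _ hx h2) (i2 _ _ hy h2)

lemma gen_of_atom {t' s' v} (hat : ∀ a b, t' ≠ app a b)
    (h : ∀ s, List.Forall₂ (Par c) s s' → Ev t' s v) :
    ∀ t s, Par c t t' → List.Forall₂ (Par c) s s' → Ev t s v := by
  intro t s h1 h2
  cases h1 with
  | refl => exact h _ h2
  | app => exact (hat _ _ rfl).elim
  | root r => exact (root_iff hE hc r _ _).2 (h _ h2)

lemma bwd {t' s' v} (h : Ev t' s' v) :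
    ∀ t s, Par c t t' → List.Forall₂ (Par c) s s' → Ev t s v := by
  induction h with
  | eT => exact gen_of_atom hE hc (by simp) (fun s h => by cases h; exact .eT)
  | eF => exact gen_of_atom hE hc (by simp) (fun s h => by cases h; exact .eF)
  | eapp _ ih =>
    intro t s h1 h2
    cases h1 with
    | refl => exact .eapp (ih _ _ (.refl _) (.cons (.refl _) h2))
    | app ha hb => exact .eapp (ih _ _ ha (.cons hb h2))
    | root r => exact (root_iff hE hc r _ _).2 (.eapp (ih _ _ (.refl _) (.cons (.refl _) h2)))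
  | eI _ ih =>
    refine gen_of_atom hE hc (by simp) (fun s h2 => ?_)
    rcases h2 with _ | ⟨hx, h2⟩; exact .eI (ih _ _ hx h2)
  | eK _ ih =>
    refine gen_of_atom hE hc (by simp) (fun s h2 => ?_)
    rcases h2 with _ | ⟨hx, _ | ⟨hy, h2⟩⟩; exact .eK (ih _ _ hx h2)
  | eS _ ih =>
    refine gen_of_atom hE hc (by simp) (fun s h2 => ?_)
    rcases h2 with _ | ⟨hx, _ | ⟨hy, _ | ⟨hz, h2⟩⟩⟩
    exact .eS (ih _ _ (.app (.app hx hz) (.app hy hz)) h2)
  | eCT _ _ i1 i2 =>
    refine gen_of_atom hE hc (by simp) (fun s h2 => ?_)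
    rcases h2 with _ | ⟨hz, _ | ⟨hx, _ | ⟨hy, h2⟩⟩⟩
    exact .eCT (i1 _ _ hz .nil) (i2 _ _ hx h2)
  | eCF _ _ i1 i2 =>
    refine gen_of_atom hE hc (by simp) (fun s h2 => ?_)
    rcases h2 with _ | ⟨hz, _ | ⟨hx, _ | ⟨hy, h2⟩⟩⟩
    exact .eCF (i1 _ _ hz .nil) (i2 _ _ hy h2)
  | eC hxy _ _ i1 i2 =>
    refine gen_of_atom hE hc (by simp) (fun s h2 => ?_)
    rcases h2 with _ | ⟨hz, _ | ⟨hx, _ | ⟨hy, h2⟩⟩⟩
    exact .eC (E_move hxy (.symm _ _ (Par_E hE hx)) (.symm _ _ (Par_E hE hy)))
      (i1 _ _ hx h2) (i2 _ _ hy h2)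

end closure

lemma lev_iff : ∀ n x y, EqvGen (Lev n) x y → ∀ s v, Ev x s v ↔ Ev y s v := by
  intro n
  induction n with
  | zero =>
    intro x y h
    induction h with
    | rel _ _ r => exact r.elim
    | refl => exact fun _ _ => Iff.rfl
    | symm _ _ _ ih => exact fun s v => (ih s v).symm
    | trans _ _ _ _ _ i1 i2 => exact fun s v => (i1 s v).trans (i2 s v)
  | succ n ihn =>
    intro x y h
    induction h with
    | rel _ _ r =>
      intro s v
      have hs : List.Forall₂ (Par (EqvGen (Lev n))) s s := List.forall₂_same.2 fun _ _ => .refl _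
      exact ⟨fun h => fwd (fun _ _ => lev_E) ihn h _ _ (Red_Par r) hs,
        fun h => bwd (fun _ _ => lev_E) ihn h _ _ (Red_Par r) hs⟩
    | refl => exact fun _ _ => Iff.rfl
    | symm _ _ _ ih => exact fun s v => (ih s v).symm
    | trans _ _ _ _ _ i1 i2 => exact fun s v => (i1 s v).trans (i2 s v)

lemma E_F {z : Tm} (h : E z F) : Ev z [] false := by
  obtain ⟨n, h⟩ := E_lev h
  exact (lev_iff n _ _ h _ _).2 .eF

lemma not_TF : ¬ E T F := fun h => by cases E_F h

/-- Nested parallel reduction of an auxiliary orthogonal system. -/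
inductive D : Tm → Tm → Prop
  | refl (t : Tm) : D t t
  | app {a a' b b'} : D a a' → D b b' → D (app a b) (app a' b')
  | dI {x x'} : D x x' → D (app I x) x'
  | dK {x x'} (y) : D x x' → D (app (app K x) y) x'
  | dS {x x' y y' z z'} : D x x' → D y y' → D z z' →
      D (app (app (app S x) y) z) (app (app x' z') (app y' z'))
  | dT {x x'} (y) : D x x' → D (app (app (app C T) x) y) x'
  | dF {z y y'} (x) : E z F → D y y' → D (app (app (app C z) x) y) y'
  | dC {z x x' y} : ¬ E z F → E x y → D x x' → D (app (app (app C z) x) y) x'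

lemma D_Rs {t u} (h : D t u) : Rs t u := by
  induction h with
  | refl => exact .refl
  | app _ _ i1 i2 => exact Rs_app i1 i2
  | dI _ ih => exact .head (R_root (.rI _)) ih
  | dK _ _ ih => exact .head (R_root (.rK _ _)) ih
  | dS _ _ _ i1 i2 i3 => exact .head (R_root (.rS _ _ _)) (Rs_app (Rs_app i1 i3) (Rs_app i2 i3))
  | dT _ _ ih => exact .head (R_root (.rT _ _)) ih
  | dF _ hz _ ih =>
    exact (Rs_app (Rs_app (Rs_app .refl (Ev_Rs (E_F hz))) .refl) .refl).trans
      (.head (R_root (.rF _ _)) ih)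
  | dC _ hxy _ ih => exact .head (R_root (.rC _ _ _ hxy)) ih

lemma D_E {t u} (h : D t u) : E t u := Rs_E (D_Rs h)

lemma inv1 {h x u : Tm} (hat : ∀ a b, h ≠ app a b) (hI : h ≠ I) (d : D (app h x) u) :
    ∃ x', u = app h x' ∧ D x x' := by
  cases d with
  | refl => exact ⟨_, rfl, .refl _⟩
  | app h1 h2 =>
    cases h1 with
    | refl => exact ⟨_, rfl, h2⟩
    | _ => exact (hat _ _ rfl).elim
  | dI => exact (hI rfl).elim
  | _ => exact (hat _ _ rfl).elim

lemma inv2 {h x y u : Tm} (hat : ∀ a b, h ≠ app a b) (hI : h ≠ I) (hK : h ≠ K)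
    (d : D (app (app h x) y) u) : ∃ x' y', u = app (app h x') y' ∧ D x x' ∧ D y y' := by
  cases d with
  | refl => exact ⟨_, _, rfl, .refl _, .refl _⟩
  | app h1 h2 =>
    obtain ⟨x', rfl, hx⟩ := inv1 hat hI h1
    exact ⟨_, _, rfl, hx, h2⟩
  | dK => exact (hK rfl).elim
  | _ => exact (hat _ _ rfl).elim

lemma inv0 {h u : Tm} (hat : ∀ a b, h ≠ app a b) (d : D h u) : u = h := by
  cases d with
  | refl => rfl
  | _ => exact (hat _ _ rfl).elim

lemma diamond {t u} (h : D t u) : ∀ w, D t w → ∃ d, D u d ∧ D w d := by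
  induction h with
  | refl => exact fun w hw => ⟨w, hw, .refl _⟩
  | app ha hb i1 i2 =>
    intro w hw
    cases hw with
    | refl => exact ⟨_, .refl _, .app ha hb⟩
    | app ha' hb' =>
      obtain ⟨d1, p1, q1⟩ := i1 _ ha'
      obtain ⟨d2, p2, q2⟩ := i2 _ hb'
      exact ⟨_, .app p1 p2, .app q1 q2⟩
    | dI hx =>
      obtain rfl := inv0 (by simp) ha
      obtain ⟨d2, p2, q2⟩ := i2 _ hx
      exact ⟨_, .dI p2, q2⟩
    | dK _ hx =>
      obtain ⟨x1, rfl, h1⟩ := inv1 (by simp) (by simp) ha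
      obtain ⟨d1, p1, q1⟩ := i1 _ (.app (.refl _) hx)
      obtain ⟨x2, rfl, h2⟩ := inv1 (by simp) (by simp) p1
      obtain ⟨x3, e, h3⟩ := inv1 (by simp) (by simp) q1
      cases e
      exact ⟨_, .dK _ h2, h3⟩
    | dS hx hy hz =>
      obtain ⟨x1, y1, rfl, h1, k1⟩ := inv2 (by simp) (by simp) (by simp) ha
      obtain ⟨d1, p1, q1⟩ := i1 _ (.app (.app (.refl _) hx) hy)
      obtain ⟨x2, y2, rfl, h2, k2⟩ := inv2 (by simp) (by simp) (by simp) p1
      obtain ⟨x3, y3, e, h3, k3⟩ := inv2 (by simp) (by simp) (by simp) q1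
      cases e
      obtain ⟨d2, p2, q2⟩ := i2 _ hz
      exact ⟨_, .dS h2 k2 p2, .app (.app h3 q2) (.app k3 q2)⟩
    | dT _ hx =>
      obtain ⟨x1, y1, rfl, h1, k1⟩ := inv2 (by simp) (by simp) (by simp) ha
      obtain rfl := inv0 (by simp) h1
      obtain ⟨d1, p1, q1⟩ := i1 _ (.app (.refl _) hx)
      obtain ⟨x2, y2, rfl, h2, k2⟩ := inv2 (by simp) (by simp) (by simp) p1
      obtain ⟨x3, y3, e, h3, k3⟩ := inv2 (by simp) (by simp) (by simp) q1
      cases e
      exact ⟨_, .dT _ k2, k3⟩
    | dF _ hz hy =>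
      obtain ⟨x1, y1, rfl, h1, k1⟩ := inv2 (by simp) (by simp) (by simp) ha
      obtain ⟨d2, p2, q2⟩ := i2 _ hy
      exact ⟨_, .dF _ (E_move hz (D_E h1) (.refl _)) p2, q2⟩
    | dC hz hxy hx =>
      obtain ⟨x1, y1, rfl, h1, k1⟩ := inv2 (by simp) (by simp) (by simp) ha
      obtain ⟨d1, p1, q1⟩ := i1 _ (.app (.refl _) hx)
      obtain ⟨x2, y2, rfl, h2, k2⟩ := inv2 (by simp) (by simp) (by simp) p1
      obtain ⟨x3, y3, e, h3, k3⟩ := inv2 (by simp) (by simp) (by simp) q1
      cases e
      exact ⟨_, .dC (fun h => hz (.trans _ _ _ (D_E h1) h)) (E_move hxy (D_E k1) (D_E hb)) k2, k3⟩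
  | dI hx ih =>
    intro w hw
    cases hw with
    | refl => exact ⟨_, .refl _, .dI hx⟩
    | app ha hb =>
      obtain rfl := inv0 (by simp) ha
      obtain ⟨d, p, q⟩ := ih _ hb
      exact ⟨_, p, .dI q⟩
    | dI hb => exact ih _ hb
  | dK y hx ih =>
    intro w hw
    cases hw with
    | refl => exact ⟨_, .refl _, .dK _ hx⟩
    | app ha hb =>
      obtain ⟨x1, rfl, h1⟩ := inv1 (by simp) (by simp) ha
      obtain ⟨d, p, q⟩ := ih _ h1
      exact ⟨_, p, .dK _ q⟩
    | dK _ hb => exact ih _ hb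
  | dS hx hy hz i1 i2 i3 =>
    intro w hw
    cases hw with
    | refl => exact ⟨_, .refl _, .dS hx hy hz⟩
    | app ha hb =>
      obtain ⟨x1, y1, rfl, h1, k1⟩ := inv2 (by simp) (by simp) (by simp) ha
      obtain ⟨d1, p1, q1⟩ := i1 _ h1
      obtain ⟨d2, p2, q2⟩ := i2 _ k1
      obtain ⟨d3, p3, q3⟩ := i3 _ hb
      exact ⟨_, .app (.app p1 p3) (.app p2 p3), .dS q1 q2 q3⟩
    | dS h1 k1 hb =>
      obtain ⟨d1, p1, q1⟩ := i1 _ h1
      obtain ⟨d2, p2, q2⟩ := i2 _ k1
      obtain ⟨d3, p3, q3⟩ := i3 _ hb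
      exact ⟨_, .app (.app p1 p3) (.app p2 p3), .app (.app q1 q3) (.app q2 q3)⟩
  | dT y hx ih =>
    intro w hw
    cases hw with
    | refl => exact ⟨_, .refl _, .dT _ hx⟩
    | app ha hb =>
      obtain ⟨x1, y1, rfl, h1, k1⟩ := inv2 (by simp) (by simp) (by simp) ha
      obtain rfl := inv0 (by simp) h1
      obtain ⟨d, p, q⟩ := ih _ k1
      exact ⟨_, p, .dT _ q⟩
    | dT _ hb => exact ih _ hb
    | dF _ hz _ => exact (not_TF hz).elim
    | dC _ _ hb => exact ih _ hb
  | dF x hz hy ih =>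
    intro w hw
    cases hw with
    | refl => exact ⟨_, .refl _, .dF _ hz hy⟩
    | app ha hb =>
      obtain ⟨x1, y1, rfl, h1, k1⟩ := inv2 (by simp) (by simp) (by simp) ha
      obtain ⟨d, p, q⟩ := ih _ hb
      exact ⟨_, p, .dF _ (E_move hz (D_E h1) (.refl _)) q⟩
    | dT _ hb => exact (not_TF hz).elim
    | dF _ _ hb => exact ih _ hb
    | dC hz' _ hb => exact (hz' hz).elim
  | dC hz hxy hx ih =>
    intro w hw
    cases hw with
    | refl => exact ⟨_, .refl _, .dC hz hxy hx⟩
    | app ha hb =>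
      obtain ⟨x1, y1, rfl, h1, k1⟩ := inv2 (by simp) (by simp) (by simp) ha
      obtain ⟨d, p, q⟩ := ih _ k1
      exact ⟨_, p, .dC (fun h => hz (.trans _ _ _ (D_E h1) h)) (E_move hxy (D_E k1) (D_E hb)) q⟩
    | dT _ hb => exact ih _ hb
    | dF _ hz' _ => exact (hz hz').elim
    | dC _ _ hb => exact ih _ hb

lemma eqv_lift (f : Tm → Tm) (hf : ∀ a b, D a b → D (f a) (f b)) {a b : Tm}
    (h : EqvGen D a b) : EqvGen D (f a) (f b) := by
  induction h with
  | rel _ _ r => exact .rel _ _ (hf _ _ r)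
  | refl => exact .refl _
  | symm _ _ _ ih => exact .symm _ _ ih
  | trans _ _ _ _ _ i1 i2 => exact .trans _ _ _ i1 i2

lemma eqv_of {c : Tm → Tm → Prop} (hc : ∀ x y, c x y → EqvGen D x y) {x y : Tm}
    (h : EqvGen c x y) : EqvGen D x y := by
  induction h with
  | rel _ _ r => exact hc _ _ r
  | refl => exact .refl _
  | symm _ _ _ ih => exact .symm _ _ ih
  | trans _ _ _ _ _ i1 i2 => exact .trans _ _ _ i1 i2

lemma lev_D : ∀ n x y, Lev n x y → EqvGen D x y := by
  intro n
  induction n with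
  | zero => exact fun _ _ h => h.elim
  | succ n ihn =>
    intro x y h
    change Red _ x y at h
    induction h with
    | root r =>
      cases r with
      | rI => exact .rel _ _ (.dI (.refl _))
      | rK => exact .rel _ _ (.dK _ (.refl _))
      | rS => exact .rel _ _ (.dS (.refl _) (.refl _) (.refl _))
      | rT => exact .rel _ _ (.dT _ (.refl _))
      | rF => exact .rel _ _ (.dF _ (.refl _) (.refl _))
      | rC z _ y hxy =>
        by_cases hz : E z F
        · exact .trans _ _ _ (.rel _ _ (.dF _ hz (.refl _))) (.symm _ _ (eqv_of ihn hxy))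
        · exact .rel _ _ (.dC hz (lev_E hxy) (.refl _))
    | left b _ ih => exact eqv_lift (fun x => app x b) (fun _ _ h => .app h (.refl _)) ih
    | right a _ ih => exact eqv_lift (fun x => app a x) (fun _ _ h => .app (.refl _) h) ih

lemma Ds_Rs {a b : Tm} (h : ReflTransGen D a b) : Rs a b := by
  induction h with
  | refl => exact .refl
  | tail _ h ih => exact ih.trans (D_Rs h)

theorem result : ∀ t t₁ t₂ : Tm, Relation.ReflTransGen R t t₁ → Relation.ReflTransGen R t t₂ →
    ∃ u, Relation.ReflTransGen R t₁ u ∧ Relation.ReflTransGen R t₂ u := by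
  intro t t₁ t₂ h1 h2
  have he : EqvGen D t₁ t₂ :=
    eqv_of (fun x y h => by obtain ⟨n, h⟩ := h; exact lev_D n x y h)
      (E_move (.refl t) (Rs_E h1) (Rs_E h2))
  have hq : Equivalence (Join (ReflTransGen D)) :=
    equivalence_join_reflTransGen fun a b c hb hc => by
      obtain ⟨d, p, q⟩ := diamond hb c hc
      exact ⟨d, .single p, .single q⟩
  have : Join (ReflTransGen D) t₁ t₂ := by
    clear h1 h2
    induction he with
    | rel _ _ r => exact ⟨_, .single r, .refl⟩
    | refl => exact hq.refl _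
    | symm _ _ _ ih => exact hq.symm ih
    | trans _ _ _ _ _ i1 i2 => exact hq.trans i1 i2
  obtain ⟨u, p, q⟩ := this
  exact ⟨u, Ds_Rs p, Ds_Rs q⟩

end Pool.Agent.Results.MP_18c441_lc.Confluent
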